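import Pool.Agent.Y294.TB2.Stm

/-!
Project TB2 (helper294), job CHAIN: propagation of the generic isotropic state along a chain of
bounces at noncircular algebraic boundary points, in all dimensions. Adapted from
`Pool/Agent/Y474/TB/Chain.lean` and `Pool/Agent/TH746/AL/Loop.lean`.
-/

set_option autoImplicit false

open Set MvPolynomial

namespace Pool.Agent.Y756.TB2

open Pool.Agent.TH746 Pool.Agent.TH746.AL H450Al Pool.Agent.Y294.TB2

/-! ### Ranks over two fields -/

section alg

theorem cl_le_tower {k K κ : Type*} [Field k] [Field K] [Field κ] [Algebra k K] [Algebra k κ]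
    [Algebra K κ] [IsScalarTower k K κ] (A S : Set κ)
    (hA : ∀ a ∈ A, ∃ b : K, algebraMap K κ b = a) : cl k (A ∪ S) ⊆ cl K S := by
  intro a ha
  rw [mem_cl] at ha ⊢
  have hle : Algebra.adjoin k (A ∪ S) ≤ (Algebra.adjoin K S).restrictScalars k := by
    apply Algebra.adjoin_le
    rintro b (hb | hb)
    · obtain ⟨c, rfl⟩ := hA b hb
      exact (Algebra.adjoin K S).algebraMap_mem c
    · exact (Algebra.subset_adjoin hb : b ∈ Algebra.adjoin K S)
  exact IsAlgebraic.tower_top_of_subalgebra_le hle ha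

theorem rk_add_indep {k K κ : Type*} [Field k] [Field K] [Field κ] [Algebra k K] [Algebra k κ]
    [Algebra K κ] [IsScalarTower k K κ] (A : Set κ)
    (hA : ∀ a ∈ A, ∃ b : K, algebraMap K κ b = a) {r : ℕ} (z : Fin r → κ)
    (hz : AlgebraicIndependent K z) : rk k A + (r : ℕ∞) ≤ rk k (A ∪ range z) := by
  classical
  have hind : (AlgebraicIndependent.matroid K κ).Indep (range z) := by
    rw [AlgebraicIndependent.matroid_indep_iff]
    exact (algebraicIndependent_subtype_range hz.injective).2 hz
  have key : ∀ F : Finset (Fin r), rk k A + (F.card : ℕ∞) ≤ rk k (A ∪ z '' F) := by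
    intro F
    induction F using Finset.induction_on with
    | empty => simp
    | insert a F ha ih =>
      have hna : z a ∉ cl k (A ∪ z '' (F : Set (Fin r))) := by
        intro h
        have h2 := cl_le_tower A (z '' (F : Set (Fin r))) hA h
        have h3 := hind.notMem_closure_sdiff_of_mem (mem_range_self a)
        apply h3
        refine cl_mono K ?_ h2
        rintro _ ⟨b, hb, rfl⟩
        refine ⟨mem_range_self b, fun hba => ?_⟩
        have h4 : b = a := hz.injective hba
        rw [h4] at hb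
        exact ha hb
      have h4 := rk_insert_eq k _ _ hna
      rw [Finset.coe_insert, image_insert_eq, union_insert, h4, Finset.card_insert_of_notMem ha]
      push_cast
      rw [← add_assoc]
      gcongr
  have h := key Finset.univ
  rw [Finset.card_univ, Fintype.card_fin, Finset.coe_univ, image_univ] at h
  exact h

end alg

/-! ### The initial state -/

section start
variable {k : Type*} [Field k] [Algebra k ℝ] {m : ℕ}

theorem start_state (K : IntermediateField k ℝ) (B : ValuationSubring ℝ) [Algebra k B]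
    [IsScalarTower k B ℝ] [Algebra K B] [IsScalarTower K B ℝ] (hKB : ∀ a ∈ K, a ∈ B)
    (x e : Fin (m + 2) → ℝ) (hx : ((m + 1 : ℕ) : ℕ∞) ≤ rk k (range x)) (hxK : ∀ i, x i ∈ K)
    (heB : ∀ i, e i ∈ B) (hnu : (∑ i, e i ^ 2) ∈ B.nonunits) (w : Fin (m + 1) → Fin (m + 2))
    (hw : ResInd K B (fun i => e (w i))) :
    ∃ c : ℝ, c ∈ B ∧ c * e 0 = - x 0 ∧ ∃ q' e' : Fin (m + 2) → B,
      St (k := k) (m := m) B (fun j => x j + c * e j) e q' e' := by
  classical
  have hxB : ∀ j, x j ∈ B := fun j => hKB _ (hxK j)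
  set x' : Fin (m + 2) → B := fun j => ⟨x j, hxB j⟩ with hx'
  set e' : Fin (m + 2) → B := fun j => ⟨e j, heB j⟩ with he'
  have hDres : IsLocalRing.residue B (∑ j, e' j ^ 2) = 0 := by
    rw [res_eq_zero_iff, AddSubmonoidClass.coe_finsetSum]
    exact hnu
  set xb := fun j => IsLocalRing.residue B (x' j) with hxb
  set eb := fun j => IsLocalRing.residue B (e' j) with heb
  have hiso : ∑ j, eb j ^ 2 = 0 := by
    rw [map_sum] at hDres
    simp only [map_pow] at hDres
    exact hDres
  have hind : AlgebraicIndependent K (fun i => eb (w i)) := by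
    rw [algebraicIndependent_iff]
    intro p hp
    by_contra hp0
    apply hw.2 p hp0
    have h1 := aeval_res (k := K) B (fun i => e' (w i)) p
    have h2 : IsLocalRing.residue B (aeval (fun i => e' (w i)) p) = 0 := h1.symm.trans hp
    rw [res_eq_zero_iff, ← aeval_coe (k := K) B] at h2
    exact h2
  have htow : IsScalarTower k K (IsLocalRing.ResidueField B) := by
    refine IsScalarTower.of_algebraMap_eq fun a => ?_
    change IsLocalRing.residue B (algebraMap k B a) =
      IsLocalRing.residue B (algebraMap K B (algebraMap k K a))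
    congr 1
    apply Subtype.ext
    have h1 : algebraMap B ℝ (algebraMap k B a) = algebraMap k ℝ a :=
      (IsScalarTower.algebraMap_apply k B ℝ a).symm
    have h2 : algebraMap B ℝ (algebraMap K B (algebraMap k K a)) =
        algebraMap K ℝ (algebraMap k K a) :=
      (IsScalarTower.algebraMap_apply K B ℝ (algebraMap k K a)).symm
    exact h1.trans h2.symm
  have hebK : ((m + 1 : ℕ) : ℕ∞) ≤ rk K (range eb) := by
    have h1 := rk_of_indep K (fun i => eb (w i)) univ
      (hind.comp (fun j : (univ : Set (Fin (m + 1))) => j.1) Subtype.val_injective)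
    rw [encard_univ] at h1
    have h2 : ((m + 1 : ℕ) : ℕ∞) ≤ rk K (range fun i => eb (w i)) := by simpa using h1
    refine h2.trans (rk_mono' K ?_)
    rintro _ ⟨i, rfl⟩
    exact ⟨w i, rfl⟩
  have hrk : rk k (range x) + ((m + 1 : ℕ) : ℕ∞) ≤ rk k (range xb ∪ range eb) := by
    have h1 : rk k (range x) ≤ rk k (range xb) :=
      rk_le_res_F (κ := k) B K.toSubfield (fun a ha => hKB a ha)
        (fun a => K.algebraMap_mem a) x' hxK
    have h2 := rk_add_indep (k := k) (K := K) (range xb) (by
        rintro _ ⟨j, rfl⟩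
        refine ⟨⟨x j, hxK j⟩, ?_⟩
        change IsLocalRing.residue B (algebraMap K B ⟨x j, hxK j⟩) = _
        rw [hxb]
        congr 1
        apply Subtype.ext
        exact (IsScalarTower.algebraMap_apply K B ℝ ⟨x j, hxK j⟩).symm) _ hind
    refine le_trans (by gcongr) (h2.trans (rk_mono' k ?_))
    apply union_subset_union_right
    rintro _ ⟨i, rfl⟩
    exact ⟨w i, rfl⟩
  have heb0 : eb 0 ≠ 0 := by
    intro h
    have h1 := iso_lemma K eb hiso (X 0) (by rw [aeval_X]; exact h)
      (not_dvd_low (Dq_ne_zero K m) (X 0) (X_ne_zero 0) (by rw [totalDegree_X]))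
    have h2 := hebK.trans h1
    have := Nat.cast_le.1 h2
    omega
  have hu0 : IsUnit (e' 0) := by
    by_contra hnu
    exact heb0 ((IsLocalRing.residue_eq_zero_iff _).2 ((IsLocalRing.mem_maximalIdeal _).2 hnu))
  obtain ⟨v, hv⟩ := hu0.exists_right_inv
  have hvr : e 0 * (v : ℝ) = 1 := congrArg (fun z : B => (z : ℝ)) hv
  set c' : B := -(x' 0) * v with hc'
  have hc'c : (c' : ℝ) = -(x 0) * (v : ℝ) := rfl
  set y' : Fin (m + 2) → B := fun j => x' j + c' * e' j with hy'
  refine ⟨(c' : ℝ), c'.2, ?_, y', e', ?_⟩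
  · rw [hc'c]
    linear_combination (-(x 0)) * hvr
  · refine ⟨fun j => rfl, fun j => rfl, hiso, ?_⟩
    refine shift_rank (k := k) (2 * m + 2) xb (fun j => IsLocalRing.residue B (y' j)) eb
      (IsLocalRing.residue B c') ?_ ?_
    · funext j
      rw [hy']
      simp only [map_add, map_mul]
      rw [hxb, heb]
      ring
    · by_cases hfull : ((m + 2 : ℕ) : ℕ∞) ≤ rk k (range x)
      · left
        refine le_trans ?_ hrk
        have : ((2 * m + 2 + 1 : ℕ) : ℕ∞) = ((m + 2 : ℕ) : ℕ∞) + ((m + 1 : ℕ) : ℕ∞) := by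
          norm_cast
          omega
        rw [this]
        gcongr
      · right
        constructor
        · refine le_trans ?_ hrk
          have : ((2 * m + 2 : ℕ) : ℕ∞) = ((m + 1 : ℕ) : ℕ∞) + ((m + 1 : ℕ) : ℕ∞) := by
            norm_cast
            omega
          rw [this]
          gcongr
        · obtain ⟨Ψ, hΨ, j0, hj0⟩ := exists_rel x hx hfull
          refine ⟨Ψ, ?_, ?_⟩
          · rw [aeval_res (k := k) B x' Ψ]
            have h1 : (aeval x' Ψ : B) = 0 := by
              apply Subtype.ext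
              rw [← aeval_coe (k := k) B]; exact hΨ
            rw [h1, map_zero]
          · have hmem : ∀ j, aeval x (pderiv j Ψ) ∈ K := fun j =>
              aeval_mem_F K.toSubfield (fun a => K.algebraMap_mem a) x hxK _
            have h2 := lin_ne (k := K) eb hiso hebK
              (fun j => ⟨aeval x (pderiv j Ψ), hmem j⟩)
              (fun h => hj0 (congrArg Subtype.val (congrFun h j0)))
            have h3 : ∀ j, algebraMap K (IsLocalRing.ResidueField B)
                ⟨aeval x (pderiv j Ψ), hmem j⟩ = aeval xb (pderiv j Ψ) := by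
              intro j
              rw [hxb, aeval_res (k := k) B x' _]
              change IsLocalRing.residue B (algebraMap K B ⟨aeval x (pderiv j Ψ), hmem j⟩) = _
              congr 1
              apply Subtype.ext
              rw [← aeval_coe (k := k) B]
              exact (IsScalarTower.algebraMap_apply K B ℝ ⟨aeval x (pderiv j Ψ), hmem j⟩).symm
            simp_rw [h3] at h2
            exact h2

end start

/-! ### The last claim -/

section last

theorem last_claim (hHG : S2_HG) {m : ℕ} {k : Type} [Field k] [Algebra k ℝ]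
    (B : ValuationSubring ℝ) [Algebra k B] [IsScalarTower k B ℝ]
    (P : MvPolynomial (Fin (m + 2)) k) (q Q e : Fin (m + 2) → ℝ) (c : ℝ) (hc : c ∈ B)
    (q' e' : Fin (m + 2) → B) (hst : St (k := k) (m := m) B Q e q' e') (hP : aeval Q P = 0)
    (hnc : ¬ Dq k (m + 2) ∣ lead P) (hQ : ∀ l, Q l = q l + c * e l)
    (hnu : (∑ l, e l ^ 2) ∈ B.nonunits) :
    ∃ l₀, e l₀ ∉ B.nonunits ∧ ∃ y : Fin (m + 1) → ℝ, ResInd k B y ∧
      ∀ i, (∃ l, y i = e l / e l₀) ∨ y i = (∑ l, q l * e l) / e l₀ := by
  classical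
  have hP0 := lead_zero_of P hnc
  have hqq : (fun j => (q' j : ℝ)) = Q := funext hst.hq
  have hPq : aeval (fun j => (q' j : ℝ)) P = 0 := by rw [hqq]; exact hP
  -- a coordinate of the direction which is a unit
  have hex : ∃ l₀, IsLocalRing.residue B (e' l₀) ≠ 0 := by
    by_contra hall
    push Not at hall
    have h2 : rk k (range (fun j => IsLocalRing.residue B (e' j))) ≤ 0 := by
      have h3 : range (fun j => IsLocalRing.residue B (e' j)) ⊆ cl k ∅ := by
        rintro _ ⟨j, rfl⟩
        simp only [hall j]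
        exact (clAlg k ∅).zero_mem
      refine (rk_mono k h3).trans ?_
      refine (rk_le_encard k _).trans ?_
      simp
    have h3 := rk_pos_le (k := k) B q' P hP0 hPq
    have h4 := hst.gen.trans ((rk_union k _ _).trans (add_le_add h3 h2))
    rw [add_zero] at h4
    have := Nat.cast_le.1 h4
    omega
  obtain ⟨l₀, hl₀⟩ := hex
  have hu0 : IsUnit (e' l₀) := by
    by_contra hnu
    exact hl₀ ((IsLocalRing.residue_eq_zero_iff _).2 ((IsLocalRing.mem_maximalIdeal _).2 hnu))
  obtain ⟨v, hv⟩ := hu0.exists_right_inv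
  have hvr : e l₀ * (v : ℝ) = 1 := by
    rw [← hst.he l₀]
    exact congrArg (fun z : B => (z : ℝ)) hv
  have he0 : e l₀ ≠ 0 := by
    intro h
    rw [h, zero_mul] at hvr
    exact zero_ne_one hvr
  have hvi : (v : ℝ) = (e l₀)⁻¹ := by
    field_simp
    linear_combination hvr
  set a := IsLocalRing.residue B (e' l₀) with ha
  have hvb : IsLocalRing.residue B v = a⁻¹ := by
    have h1 : a * IsLocalRing.residue B v = 1 := by
      rw [ha, ← map_mul, hv, map_one]
    exact eq_inv_of_mul_eq_one_right h1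
  have hPb : aeval (fun j => IsLocalRing.residue B (q' j)) P = 0 := by
    rw [aeval_res (k := k) B]
    have h1 : (aeval q' P : B) = 0 := by
      apply Subtype.ext
      rw [← aeval_coe (k := k) B]; exact hPq
    rw [h1, map_zero]
  have hHG' := hHG m k (IsLocalRing.ResidueField B) (fun j => IsLocalRing.residue B (q' j))
    (fun j => IsLocalRing.residue B (e' j)) P l₀ hnc hPb hst.iso hst.gen hl₀
  -- the family of lifts
  obtain ⟨Z, hZ⟩ : ∃ Z : Option (Fin (m + 2)) → B, Z = fun o => match o with
      | some l => e' l * v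
      | none => ((∑ l, q' l * e' l) - ⟨c, hc⟩ * ∑ l, e' l ^ 2) * v := ⟨_, rfl⟩
  have hZs : ∀ l, Z (some l) = e' l * v := by intro l; rw [hZ]
  have hZn : Z none = ((∑ l, q' l * e' l) - ⟨c, hc⟩ * ∑ l, e' l ^ 2) * v := by rw [hZ]
  have hZsr : ∀ l, ((Z (some l) : B) : ℝ) = e l / e l₀ := by
    intro l
    rw [hZs l, div_eq_mul_inv, ← hvi]
    change (e' l : ℝ) * (v : ℝ) = _
    rw [hst.he l]
  have hZnr : ((Z none : B) : ℝ) = (∑ l, q l * e l) / e l₀ := by
    rw [hZn, div_eq_mul_inv, ← hvi]
    change (((∑ l, q' l * e' l : B) : ℝ) - c * ((∑ l, e' l ^ 2 : B) : ℝ)) * (v : ℝ) = _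
    rw [AddSubmonoidClass.coe_finsetSum, AddSubmonoidClass.coe_finsetSum]
    congr 1
    have h1 : ∀ l, ((q' l * e' l : B) : ℝ) = q l * e l + c * e l ^ 2 := by
      intro l
      change (q' l : ℝ) * (e' l : ℝ) = _
      rw [hst.hq l, hst.he l, hQ l]
      ring
    have h2 : ∀ l, ((e' l ^ 2 : B) : ℝ) = e l ^ 2 := by
      intro l
      change (e' l : ℝ) ^ 2 = _
      rw [hst.he l]
    simp_rw [h1, h2]
    rw [Finset.sum_add_distrib, Finset.mul_sum]
    ring
  have hDres : IsLocalRing.residue B (∑ j, e' j ^ 2) = 0 := by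
    rw [map_sum]
    simp only [map_pow]
    exact hst.iso
  have hrange : range (fun o => IsLocalRing.residue B (Z o)) =
      insert ((∑ l, IsLocalRing.residue B (q' l) * IsLocalRing.residue B (e' l)) / a)
        (range fun l => IsLocalRing.residue B (e' l) / a) := by
    have h1 : ∀ l, IsLocalRing.residue B (Z (some l)) = IsLocalRing.residue B (e' l) / a := by
      intro l
      rw [hZs l, map_mul, hvb, div_eq_mul_inv]
    have h2 : IsLocalRing.residue B (Z none) =
        (∑ l, IsLocalRing.residue B (q' l) * IsLocalRing.residue B (e' l)) / a := by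
      rw [hZn, map_mul, map_sub, map_mul, hDres, mul_zero, sub_zero, hvb, map_sum,
        div_eq_mul_inv]
      simp only [map_mul]
    ext b
    constructor
    · rintro ⟨o, rfl⟩
      cases o with
      | none => left; exact h2
      | some l => right; exact ⟨l, (h1 l).symm⟩
    · rintro (h | ⟨l, h⟩)
      · exact ⟨none, h2.trans h.symm⟩
      · exact ⟨some l, (h1 l).trans h⟩
  obtain ⟨J, hJ, -, hJr⟩ := exists_basis_index k (fun o => IsLocalRing.residue B (Z o))
  have hJc : ((m + 1 : ℕ) : ℕ∞) ≤ J.encard := by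
    rw [← hJr, hrange]
    exact hHG'
  obtain ⟨J', hJ', hJ'c⟩ := exists_subset_encard_eq hJc
  have hJf : J'.Finite := Set.toFinite _
  have hcard : Nat.card J' = m + 1 := by
    have h1 : J'.ncard = m + 1 := by
      rw [Set.ncard_def, hJ'c]
      rfl
    exact h1
  have hne : Nonempty (Fin (m + 1) ≃ J') := by
    have := Finite.equivFinOfCardEq hcard
    exact ⟨this.symm⟩
  obtain ⟨φ⟩ := hne
  refine ⟨l₀, ?_, fun i => ((Z (φ i).1 : B) : ℝ), ⟨fun i => (Z (φ i).1).2, ?_⟩, ?_⟩
  · intro h
    apply hl₀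
    rw [ha, res_eq_zero_iff, hst.he l₀]
    exact h
  · intro f hf hmem
    have hcomp : AlgebraicIndependent k (fun i : Fin (m + 1) =>
        IsLocalRing.residue B (Z (φ i).1)) :=
      hJ.comp (fun i : Fin (m + 1) => (⟨(φ i).1, hJ' (φ i).2⟩ : J)) (by
        intro i j hij
        apply φ.injective
        apply Subtype.ext
        exact congrArg (fun z : J => z.1) hij)
    apply hf
    apply hcomp.eq_zero_of_aeval_eq_zero
    rw [aeval_res (k := k) B, res_eq_zero_iff, ← aeval_coe (k := k) B]
    exact hmem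
  · intro i
    cases h : (φ i).1 with
    | none =>
      right
      change ((Z (φ i).1 : B) : ℝ) = _
      rw [h]
      exact hZnr
    | some l =>
      left
      refine ⟨l, ?_⟩
      change ((Z (φ i).1 : B) : ℝ) = _
      rw [h]
      exact hZsr l

end last

/-! ### The chain -/

theorem chain (hHG : S2_HG) : S2_CHAIN := by
  classical
  intro m k _ _ K B hKB N P Φ q e s hx hxK heB hnu htr hP hnc hν hq he
  have hkB : ∀ a : k, algebraMap k ℝ a ∈ B := fun a => hKB _ (K.algebraMap_mem a)
  have hKB' : ∀ a : K, algebraMap K ℝ a ∈ B := fun a => hKB _ a.2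
  let _ : Algebra k B := constAlgebra k B hkB
  have _ : IsScalarTower k B ℝ := constTower k B hkB
  let _ : Algebra K B := constAlgebra K B hKB'
  have _ : IsScalarTower K B ℝ := constTower K B hKB'
  obtain ⟨w, hw⟩ := htr
  obtain ⟨c, hcB, hc, hst⟩ := start_state K B hKB (q 0) (e 0) hx hxK heB hnu w hw
  obtain ⟨Q, hQ⟩ : ∃ Q : ℕ → Fin (m + 2) → ℝ,
      Q = fun i => if i = 0 then fun j => q 0 j + c * e 0 j else q i := ⟨_, rfl⟩
  obtain ⟨S, hS⟩ : ∃ S : ℕ → ℝ, S = fun i => if i = 0 then s 0 - c else s i := ⟨_, rfl⟩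
  obtain ⟨R, hR⟩ : ∃ R : ℕ → MvPolynomial (Fin (m + 2)) k,
      R = fun i => if i = 0 then X 0 else P i := ⟨_, rfl⟩
  have hQ0 : Q 0 = fun j => q 0 j + c * e 0 j := by rw [hQ]; simp
  have hQs : ∀ i, 1 ≤ i → Q i = q i := by
    intro i hi
    rw [hQ]
    simp [show i ≠ 0 by omega]
  have hR0 : R 0 = X 0 := by rw [hR]; simp
  have hRs : ∀ i, 1 ≤ i → R i = P i := by
    intro i hi
    rw [hR]
    simp [show i ≠ 0 by omega]
  have hS0 : S 0 = s 0 - c := by rw [hS]; simp
  have hSs : ∀ i, 1 ≤ i → S i = s i := by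
    intro i hi
    rw [hS]
    simp [show i ≠ 0 by omega]
  have hRz : ∀ i ≤ N, aeval (Q i) (R i) = 0 := by
    intro i hi
    rcases Nat.eq_zero_or_pos i with h | h
    · subst h
      rw [hR0, hQ0, aeval_X, hc]
      ring
    · rw [hRs i h, hQs i h]
      exact hP i h hi
  have hRl : ∀ i ≤ N, ¬ Dq k (m + 2) ∣ lead (R i) := by
    intro i hi
    rcases Nat.eq_zero_or_pos i with h | h
    · subst h
      rw [hR0]
      exact lead_X (Dq_ne_zero k m)
    · rw [hRs i h]
      exact hnc i h hi
  have hQq : ∀ i < N, Q (i + 1) = fun j => Q i j + S i * e i j := by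
    intro i hi
    rw [hQs (i + 1) (by omega), hq i hi]
    rcases Nat.eq_zero_or_pos i with h | h
    · subst h
      rw [hQ0, hS0]
      funext j
      ring
    · rw [hQs i h, hSs i h]
  have hind : ∀ i ≤ N, (∀ j < i, S j ∈ B) ∧ ∃ q' e' : Fin (m + 2) → B,
      St (k := k) (m := m) B (Q i) (e i) q' e' := by
    intro i
    induction i with
    | zero =>
      intro _
      refine ⟨fun j hj => absurd hj (Nat.not_lt_zero j), ?_⟩
      rw [hQ0]
      exact hst
    | succ i ih =>
      intro hi
      obtain ⟨h1, h2⟩ := ih (by omega)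
      obtain ⟨h3, h4⟩ := step_lemma B (Q i) (e i) (Q (i + 1)) (e (i + 1)) (S i) (R i)
        (R (i + 1)) (Φ (i + 1)) (hRl i (by omega)) (hRz i (by omega)) (hRl (i + 1) hi)
        (hRz (i + 1) hi) (by rw [hQs (i + 1) (by omega)]; exact hν (i + 1) (by omega) hi)
        (hQq i (by omega)) (by rw [hQs (i + 1) (by omega)]; exact he i (by omega)) h2
      refine ⟨fun j hj => ?_, h4⟩
      rcases Nat.lt_succ_iff_lt_or_eq.1 hj with h5 | h5
      · exact h1 j h5
      · rw [h5]; exact h3
  obtain ⟨hSB, qN, eN, hstN⟩ := hind N le_rfl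
  obtain ⟨c₁, hc₁B, hc₁⟩ : ∃ c₁ ∈ B, ∀ l, Q N l = q N l + c₁ * e N l := by
    rcases Nat.eq_zero_or_pos N with h | h
    · subst h
      exact ⟨c, hcB, fun l => by rw [hQ0]⟩
    · exact ⟨0, B.zero_mem, fun l => by rw [hQs N h]; ring⟩
  have heNB : ∀ l, e N l ∈ B := by
    intro l
    rw [← hstN.he l]
    exact (eN l).2
  have hsq : ∑ i, e N i ^ 2 = ∑ i, e 0 i ^ 2 := by
    have h1 : ∀ i ≤ N, ∑ j, e i j ^ 2 = ∑ j, e 0 j ^ 2 := by
      intro i
      induction i with
      | zero => intro _; rfl
      | succ i ih =>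
        intro hi
        rw [he i (by omega), refl_sq _ _ (sq_sum_ne _ (hν (i + 1) (by omega) hi))]
        exact ih (by omega)
    exact h1 N le_rfl
  refine ⟨?_, ?_, heNB, hsq, ?_⟩
  · refine sum_mem fun i hi => ?_
    have h1 := hSB i (Finset.mem_range.1 hi)
    rcases Nat.eq_zero_or_pos i with h | h
    · subst h
      rw [hS0] at h1
      have h2 : s 0 = (s 0 - c) + c := by ring
      rw [h2]
      exact add_mem h1 hcB
    · rw [hSs i h] at h1
      exact h1
  · intro l
    have h1 : q N l = Q N l - c₁ * e N l := by rw [hc₁ l]; ring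
    rw [h1, ← hstN.hq l]
    exact sub_mem (qN l).2 (mul_mem hc₁B (heNB l))
  · exact last_claim hHG B (R N) (q N) (Q N) (e N) c₁ hc₁B qN eN hstN (hRz N le_rfl)
      (hRl N le_rfl) hc₁ (by rw [hsq]; exact hnu)

end Pool.Agent.Y756.TB2

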