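import Pool.Agent.Y294.TB2.Stm

/-!
Project TB2 (helper294), jobs LEN and PLACE in all dimensions. Adapted from
`Pool/Agent/Y496/TB/Len.lean` and `Pool/Agent/TH746/AL/Loop.lean`.
-/

set_option autoImplicit false

namespace Pool.Agent.Y756.TB2

open MvPolynomial Set H450Al Pool.Agent.TH746.AL Pool.Agent.Y294.TB2

/-- a derivation over `K` kills the elements algebraic over `K` -/
theorem der_alg {K : Type*} [Field K] [Algebra K ℝ] (D : Derivation K ℝ ℝ) {a : ℝ}
    (ha : IsAlgebraic K a) : D a = 0 := by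
  have hchar : CharZero K := by
    have : Function.Injective (algebraMap K ℝ) := (algebraMap K ℝ).injective
    exact (RingHom.charZero_iff this).2 inferInstance
  have h1 : (minpoly K a).Separable := (minpoly.irreducible ha.isIntegral).separable
  have h2 := h1.aeval_derivative_ne_zero (minpoly.aeval K a)
  have h3 := D.map_aeval (minpoly K a) a
  rw [minpoly.aeval, map_zero, smul_eq_mul] at h3
  exact (mul_eq_zero.1 h3.symm).resolve_left h2

/-- LEN -/
theorem len : S2_LEN := by
  intro d k _ _ K n Φ q u t hn hq0K hqn hunit hΦ hq hu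
  by_contra htr
  obtain ⟨D, hD⟩ := exists_derivation _ htr
  apply hD
  have hDK : ∀ a ∈ K, D a = 0 := by
    intro a ha
    exact D.map_algebraMap (⟨a, ha⟩ : K)
  have hq0 : ∀ j, D (q 0 j) = 0 := fun j => hDK _ (hq0K j)
  have hqnD : ∀ j, D (q n j) = 0 := fun j => der_alg D (hqn j)
  -- velocities are orthogonal to their derivatives
  have h1 : ∀ i < n, ∑ j, u i j * D (u i j) = 0 := by
    intro i hi
    have := congrArg D (hunit i hi)
    rw [map_sum, D.map_one_eq_zero] at this
    have h2 : ∀ j, D (u i j ^ 2) = 2 * (u i j * D (u i j)) := by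
      intro j
      rw [D.leibniz_pow]
      simp
    simp_rw [h2] at this
    rw [← Finset.mul_sum] at this
    linarith
  -- the normal is orthogonal to the motion of the vertex
  have h2 : ∀ i, 1 ≤ i → i < n → ∑ j, grad (Φ i) (q i) j * D (q i j) = 0 := by
    intro i hi1 hi
    have := congrArg D (hΦ i hi1 hi)
    rw [map_zero] at this
    have h3 := der_aeval (D.restrictScalars k) (Φ i) (q i)
    exact h3.symm.trans this
  -- derivative of a flight time
  have h3 : ∀ i < n, D (t i) = ∑ j, u i j * D (q (i + 1) j) - ∑ j, u i j * D (q i j) := by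
    intro i hi
    have h4 : ∀ j, D (q (i + 1) j) = D (q i j) + (t i * D (u i j) + u i j * D (t i)) := by
      intro j
      rw [hq i hi, map_add, D.leibniz, smul_eq_mul, smul_eq_mul]
    simp_rw [h4, mul_add, Finset.sum_add_distrib]
    have h5 : ∑ j, u i j * (t i * D (u i j)) = 0 := by
      have : ∀ j, u i j * (t i * D (u i j)) = t i * (u i j * D (u i j)) := fun j => by ring
      simp_rw [this]
      rw [← Finset.mul_sum, h1 i hi, mul_zero]
    have h6 : ∑ j, u i j * (u i j * D (t i)) = D (t i) := by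
      have : ∀ j, u i j * (u i j * D (t i)) = u i j ^ 2 * D (t i) := fun j => by ring
      simp_rw [this]
      rw [← Finset.sum_mul, hunit i hi, one_mul]
    rw [h5, h6]; ring
  have h4 : ∀ i, i + 1 < n →
      ∑ j, u i j * D (q (i + 1) j) = ∑ j, u (i + 1) j * D (q (i + 1) j) := by
    intro i hi
    rw [hu i hi]
    unfold H450Al.refl
    simp_rw [sub_mul, Finset.sum_sub_distrib]
    have : ∑ x, 2 * (∑ j, u i j * grad (Φ (i + 1)) (q (i + 1)) j) /
        (∑ j, grad (Φ (i + 1)) (q (i + 1)) j ^ 2) * grad (Φ (i + 1)) (q (i + 1)) x *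
        D (q (i + 1) x) = 0 := by
      simp_rw [mul_assoc]
      rw [← Finset.mul_sum, h2 (i + 1) (by omega) hi, mul_zero]
    rw [this, sub_zero]
  obtain ⟨W, hW⟩ : ∃ W : ℕ → ℝ, W = fun i => if i < n then ∑ j, u i j * D (q i j) else 0 :=
    ⟨_, rfl⟩
  rw [map_sum]
  have h5 : ∀ i ∈ Finset.range n, D (t i) = W (i + 1) - W i := by
    intro i hi
    have hi' := Finset.mem_range.1 hi
    rw [h3 i hi', hW]
    simp only [if_pos hi']
    by_cases h6 : i + 1 < n
    · rw [if_pos h6, h4 i h6]
    · rw [if_neg h6]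
      have h7 : i + 1 = n := by omega
      have h8 : ∑ j, u i j * D (q (i + 1) j) = 0 := by
        apply Finset.sum_eq_zero
        intro j _
        rw [h7, hqnD, mul_zero]
      rw [h8]
  rw [Finset.sum_congr rfl h5, Finset.sum_range_sub W, hW]
  simp only [lt_irrefl, if_false]
  rw [if_pos (by omega), zero_sub, neg_eq_zero]
  apply Finset.sum_eq_zero
  intro j _
  rw [hq0, mul_zero]

/-- PLACE -/
theorem place : S2_PLACE := by
  intro m k _ _ K hKc u hrk hunit
  classical
  -- a transcendental scale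
  obtain ⟨lam, hlam⟩ : ∃ lam : ℝ, lam ∉ cl K (range u) := by
    have h1 : (cl K (range u)).Countable := countable_cl u
    by_contra hall
    push Not at hall
    have h3 : cl K (range u) = univ := eq_univ_of_forall hall
    rw [h3] at h1
    exact Set.not_countable_univ h1
  have hlam0 : lam ≠ 0 := by
    rintro rfl
    exact hlam (clAlg K _).zero_mem
  obtain ⟨e, he⟩ : ∃ e : Fin (m + 2) → ℝ, e = fun j => lam * u j := ⟨_, rfl⟩
  -- full rank of the scaled direction
  have hgene : ((m + 2 : ℕ) : ℕ∞) ≤ rk K (range e) := by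
    have h1 := rk_insert_eq K _ _ hlam
    have h2 : ((m + 2 : ℕ) : ℕ∞) ≤ rk K (insert lam (range u)) := by
      rw [h1]
      have : ((m + 2 : ℕ) : ℕ∞) = ((m + 1 : ℕ) : ℕ∞) + 1 := by push_cast; ring
      rw [this]
      gcongr
    refine h2.trans (rk_mono K ?_)
    have hecl : ∀ j, e j ∈ clAlg K (range e) := fun j =>
      subset_cl K _ (mem_range_self j)
    have hsq : lam ^ 2 = ∑ j, e j ^ 2 := by
      simp only [he, mul_pow]
      rw [← Finset.mul_sum, hunit, mul_one]
    have hlamcl : lam ∈ cl K (range e) := by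
      have h3 : lam ^ 2 ∈ cl K (range e) := by
        rw [hsq]
        exact (clAlg K _).sum_mem fun j _ => pow_mem (hecl j) 2
      rw [mem_cl] at h3 ⊢
      exact h3.of_pow (by norm_num)
    rw [insert_subset_iff]
    refine ⟨hlamcl, ?_⟩
    rintro _ ⟨j, rfl⟩
    have h5 : u j = e j * lam⁻¹ := by
      simp only [he]
      field_simp
    rw [h5]
    exact (clAlg K _).mul_mem (hecl j) (inv_mem_cl K hlamcl)
  obtain ⟨S, hS⟩ : ∃ S : Set ℝ, S = range (fun i : Fin (m + 1) => e i.succ) := ⟨_, rfl⟩
  have hrange : range e = insert (e 0) S := by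
    rw [hS]
    ext a
    constructor
    · rintro ⟨j, rfl⟩
      refine Fin.cases ?_ (fun i => ?_) j
      · exact Or.inl rfl
      · exact Or.inr ⟨i, rfl⟩
    · rintro (h | ⟨i, h⟩)
      · exact ⟨0, h.symm⟩
      · exact ⟨i.succ, h⟩
  have h0 : e 0 ∉ cl K S := by
    intro h
    have h1 : rk K (range e) ≤ rk K S := by
      apply rk_mono
      rw [hrange, insert_subset_iff]
      exact ⟨h, subset_cl K _⟩
    have h3 : rk K S ≤ ((m + 1 : ℕ) : ℕ∞) := by
      rw [hS]
      have := rk_range_le K (fun i : Fin (m + 1) => e i.succ)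
      rwa [Fintype.card_fin] at this
    have h2 := hgene.trans (h1.trans h3)
    have := Nat.cast_le.1 h2
    omega
  have htr : ∀ f : MvPolynomial (Fin (m + 1)) K, f ≠ 0 →
      aeval (fun i : Fin (m + 1) => e i.succ) f ≠ 0 := by
    intro f hf h
    have h1 := rk_lt_of_relation K (fun i : Fin (m + 1) => e i.succ) f hf h
    rw [← hS] at h1
    have h2 := rk_insert K S (e 0)
    rw [← hrange] at h2
    have h3 : ((m + 2 : ℕ) : ℕ∞) ≤ ((m + 1 : ℕ) : ℕ∞) := by
      refine hgene.trans (h2.trans ?_)
      push_cast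
      gcongr
    have := Nat.cast_le.1 h3
    omega
  have hSmem : ∀ i : Fin (m + 1), e i.succ ∈ S := fun i => by
    rw [hS]
    exact mem_range_self i
  obtain ⟨B, hFB, h0B, hnu⟩ := exists_place K S e hSmem h0
  have hsq : lam ^ 2 = ∑ j, e j ^ 2 := by
    simp only [he, mul_pow]
    rw [← Finset.mul_sum, hunit, mul_one]
  have h1B : ∀ i : Fin (m + 1), e i.succ ∈ B := fun i =>
    hFB _ (IntermediateField.subset_adjoin K _ (hSmem i))
  refine ⟨lam, B, hlam0, fun a ha => hFB a ?_, fun i => ?_, ?_, Fin.succ, ?_, ?_⟩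
  · exact (IntermediateField.adjoin K S).algebraMap_mem (⟨a, ha⟩ : K)
  · have h1 : lam * u i = e i := by rw [he]
    rw [h1]
    refine Fin.cases ?_ (fun l => ?_) i
    · exact h0B
    · exact h1B l
  · rw [hsq]
    exact hnu
  · intro i
    have h1 : lam * u i.succ = e i.succ := by rw [he]
    change lam * u i.succ ∈ B
    rw [h1]
    exact h1B i
  · have h1 : (fun i : Fin (m + 1) => lam * u i.succ) = fun i => e i.succ := by rw [he]
    intro f hf hmem
    rw [h1] at hmem
    have hne := htr f hf
    have hF : aeval (fun i : Fin (m + 1) => e i.succ) f ∈ IntermediateField.adjoin K S := by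
      apply IntermediateField.algebra_adjoin_le_adjoin K S
      rw [hS, Algebra.adjoin_range_eq_range_aeval]
      exact ⟨f, rfl⟩
    have hinv : (aeval (fun i : Fin (m + 1) => e i.succ) f)⁻¹ ∈ B :=
      hFB _ ((IntermediateField.adjoin K S).inv_mem hF)
    rw [ValuationSubring.mem_nonunits_iff_exists_mem_maximalIdeal] at hmem
    obtain ⟨hB, hQ⟩ := hmem
    rw [IsLocalRing.mem_maximalIdeal, mem_nonunits_iff] at hQ
    apply hQ
    refine IsUnit.of_mul_eq_one ⟨_, hinv⟩ ?_
    apply Subtype.ext
    change aeval (fun i : Fin (m + 1) => e i.succ) f *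
      (aeval (fun i : Fin (m + 1) => e i.succ) f)⁻¹ = 1
    exact mul_inv_cancel₀ hne

end Pool.Agent.Y756.TB2
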